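import Pool.Agent.helper29.NS.Spec2

/-!
# Project ns, tools for the integrated identities
-/

namespace NS

open MeasureTheory Filter Topology Set

theorem IT_mul (v : ℝ × ℝ × ℝ) (f g : ℝ × ℝ × ℝ → ℝ) (z : ℝ × ℝ × ℝ)
    (hf : DifferentiableAt ℝ f z) (hg : DifferentiableAt ℝ g z) :
    fderiv ℝ (fun y => f y * g y) z v = fderiv ℝ f z v * g z + f z * fderiv ℝ g z v := by
  rw [fderiv_fun_mul hf hg]
  simp
  ring

theorem IT_comm (v w : ℝ × ℝ × ℝ) (f : ℝ × ℝ × ℝ → ℝ) (hf : ContDiff ℝ 2 f) (z : ℝ × ℝ × ℝ) :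
    fderiv ℝ (fun y => fderiv ℝ f y v) z w = fderiv ℝ (fun y => fderiv ℝ f y w) z v := by
  have hd : DifferentiableAt ℝ (fderiv ℝ f) z :=
    ((hf.fderiv_right (m := 1) (by norm_num)).differentiable (by norm_num)) z
  have h1 : ∀ u : ℝ × ℝ × ℝ, fderiv ℝ (fun y => fderiv ℝ f y u) z =
      (fderiv ℝ (fderiv ℝ f) z).flip u := by
    intro u
    have h2 := hd.hasFDerivAt.clm_apply (hasFDerivAt_const u z)
    rw [h2.fderiv, ContinuousLinearMap.comp_zero, zero_add]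
  rw [h1 v, h1 w]
  have hs : IsSymmSndFDerivAt ℝ f z :=
    hf.contDiffAt.isSymmSndFDerivAt (by simp)
  exact hs w v

theorem IT_dt1 {f : ℝ × ℝ × ℝ → ℝ} (hf : ContDiff ℝ 2 f) : ContDiff ℝ 1 (dt f) :=
  (hf.fderiv_right (m := 1) (by norm_num)).clm_apply contDiff_const
theorem IT_dx1 {f : ℝ × ℝ × ℝ → ℝ} (hf : ContDiff ℝ 2 f) : ContDiff ℝ 1 (dx f) :=
  (hf.fderiv_right (m := 1) (by norm_num)).clm_apply contDiff_const
theorem IT_dy1 {f : ℝ × ℝ × ℝ → ℝ} (hf : ContDiff ℝ 2 f) : ContDiff ℝ 1 (dy f) :=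
  (hf.fderiv_right (m := 1) (by norm_num)).clm_apply contDiff_const
theorem IT_dx2 {f : ℝ × ℝ × ℝ → ℝ} (hf : ContDiff ℝ 3 f) : ContDiff ℝ 2 (dx f) :=
  (hf.fderiv_right (m := 2) (by norm_num)).clm_apply contDiff_const
theorem IT_dy2 {f : ℝ × ℝ × ℝ → ℝ} (hf : ContDiff ℝ 3 f) : ContDiff ℝ 2 (dy f) :=
  (hf.fderiv_right (m := 2) (by norm_num)).clm_apply contDiff_const
theorem IT_dtc {f : ℝ × ℝ × ℝ → ℝ} (hf : ContDiff ℝ 1 f) : Continuous (dt f) :=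
  (hf.continuous_fderiv (by norm_num)).clm_apply continuous_const
theorem IT_dxc {f : ℝ × ℝ × ℝ → ℝ} (hf : ContDiff ℝ 1 f) : Continuous (dx f) :=
  (hf.continuous_fderiv (by norm_num)).clm_apply continuous_const
theorem IT_dyc {f : ℝ × ℝ × ℝ → ℝ} (hf : ContDiff ℝ 1 f) : Continuous (dy f) :=
  (hf.continuous_fderiv (by norm_num)).clm_apply continuous_const

theorem IT_cs (v : ℝ × ℝ × ℝ) {f : ℝ × ℝ × ℝ → ℝ} (hf : HasCompactSupport f) :
    HasCompactSupport (fun z => fderiv ℝ f z v) := hf.fderiv_apply ℝ v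

theorem IT_int {f : ℝ × ℝ × ℝ → ℝ} (hf : Continuous f) (hc : HasCompactSupport f) :
    Integrable f := hf.integrable_of_hasCompactSupport hc

theorem IT_sq {W : ℝ × ℝ × ℝ → ℝ} (hc : HasCompactSupport W) :
    HasCompactSupport (fun z => W z ^ 2) := by
  have h1 : (fun z => W z ^ 2) = (fun z => W z * W z) := by funext z; ring
  rw [h1]
  exact hc.mul_right

theorem IT_dsq (v : ℝ × ℝ × ℝ) {W : ℝ × ℝ × ℝ → ℝ} (hW : ContDiff ℝ 1 W) (z : ℝ × ℝ × ℝ) :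
    fderiv ℝ (fun z => W z ^ 2) z v = 2 * (W z * fderiv ℝ W z v) := by
  have hd : DifferentiableAt ℝ W z := (hW.differentiable (by norm_num)) z
  rw [fderiv_fun_pow 2 hd]
  simp
  ring

/-- the basic identity `∫ F W W_v = -(1/2) ∫ F_v W²` for `v = x` -/
theorem IT_x (hIB : IB_stmt) {F W : ℝ × ℝ × ℝ → ℝ} (hF : ContDiff ℝ 1 F) (hW : ContDiff ℝ 1 W)
    (hc : HasCompactSupport W) :
    ∫ z, F z * (W z * dx W z) = -(1 / 2) * ∫ z, dx F z * W z ^ 2 := by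
  have h1 := (hIB F (fun z => W z ^ 2) hF (hW.pow 2) (IT_sq hc)).2.1
  have h3 : (fun z => F z * dx (fun z => W z ^ 2) z) = fun z => 2 * (F z * (W z * dx W z)) := by
    funext z
    unfold dx
    rw [IT_dsq _ hW z]
    ring
  rw [h3, integral_const_mul] at h1
  linarith

theorem IT_y (hIB : IB_stmt) {F W : ℝ × ℝ × ℝ → ℝ} (hF : ContDiff ℝ 1 F) (hW : ContDiff ℝ 1 W)
    (hc : HasCompactSupport W) :
    ∫ z, F z * (W z * dy W z) = -(1 / 2) * ∫ z, dy F z * W z ^ 2 := by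
  have h1 := (hIB F (fun z => W z ^ 2) hF (hW.pow 2) (IT_sq hc)).2.2
  have h3 : (fun z => F z * dy (fun z => W z ^ 2) z) = fun z => 2 * (F z * (W z * dy W z)) := by
    funext z
    unfold dy
    rw [IT_dsq _ hW z]
    ring
  rw [h3, integral_const_mul] at h1
  linarith

end NS
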