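import Pool.Agent.helper58.NS.WT

/-!
# Project ns, module CJ: conjugation
-/

namespace NS

open MeasureTheory Filter Topology Set

theorem CJ_exp (l τ : ℝ) (g : ℝ × ℝ × ℝ → ℝ) (z v : ℝ × ℝ × ℝ) (hg : DifferentiableAt ℝ g z) :
    fderiv ℝ (fun z => Real.exp (τ * wt l z) * g z) z v =
    Real.exp (τ * wt l z) * (fderiv ℝ g z v + τ * fderiv ℝ (wt l) z v * g z) := by
  have hd : DifferentiableAt ℝ (wt l) z := ((WT_wt3 l).differentiable (by norm_num)) z
  have h1 : HasFDerivAt (fun z => Real.exp (τ * wt l z))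
      (Real.exp (τ * wt l z) • (τ • fderiv ℝ (wt l) z)) z := (hd.hasFDerivAt.const_mul τ).exp
  rw [IT_mul v _ g z h1.differentiableAt hg, h1.fderiv]
  have h2 : (Real.exp (τ * wt l z) • (τ • fderiv ℝ (wt l) z)) v =
      Real.exp (τ * wt l z) * (τ * fderiv ℝ (wt l) z v) := rfl
  rw [h2]
  ring

theorem CJ : CJ_stmt := by
  intro ν l τ w hw z
  have hw1 : ContDiff ℝ 1 w := hw.of_le (by norm_num)
  have dw : Differentiable ℝ w := hw1.differentiable (by norm_num)
  have hx1 := IT_dx1 hw
  have hy1 := IT_dy1 hw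
  have hφ2 : ContDiff ℝ 2 (wt l) := (WT_wt3 l).of_le (by norm_num)
  have px1 := IT_dx1 hφ2
  have py1 := IT_dy1 hφ2
  have dwx : Differentiable ℝ (dx w) := hx1.differentiable (by norm_num)
  have dwy : Differentiable ℝ (dy w) := hy1.differentiable (by norm_num)
  have dpx : Differentiable ℝ (dx (wt l)) := px1.differentiable (by norm_num)
  have dpy : Differentiable ℝ (dy (wt l)) := py1.differentiable (by norm_num)
  set W : ℝ × ℝ × ℝ → ℝ := fun z => Real.exp (τ * wt l z) * w z with hW
  have eWx : dx W = fun z => Real.exp (τ * wt l z) * (dx w z + τ * dx (wt l) z * w z) := by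
    funext y; exact CJ_exp l τ w y _ (dw y)
  have eWy : dy W = fun z => Real.exp (τ * wt l z) * (dy w z + τ * dy (wt l) z * w z) := by
    funext y; exact CJ_exp l τ w y _ (dw y)
  have eWt : dt W z = Real.exp (τ * wt l z) * (dt w z + τ * dt (wt l) z * w z) :=
    CJ_exp l τ w z _ (dw z)
  have eWxx : dx (dx W) z = Real.exp (τ * wt l z) * ((dx (dx w) z + τ * (dx (dx (wt l)) z * w z
      + dx (wt l) z * dx w z)) + τ * dx (wt l) z * (dx w z + τ * dx (wt l) z * w z)) := by
    rw [eWx]
    have hg : DifferentiableAt ℝ (fun z => dx w z + τ * dx (wt l) z * w z) z := by fun_prop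
    have h1 : dx (fun z => Real.exp (τ * wt l z) * (dx w z + τ * dx (wt l) z * w z)) z =
        Real.exp (τ * wt l z) * (dx (fun z => dx w z + τ * dx (wt l) z * w z) z
          + τ * dx (wt l) z * (dx w z + τ * dx (wt l) z * w z)) := CJ_exp l τ _ z _ hg
    rw [h1]
    have h2 : dx (fun z => dx w z + τ * dx (wt l) z * w z) z = dx (dx w) z
        + τ * (dx (dx (wt l)) z * w z + dx (wt l) z * dx w z) := by
      have e : (fun z => dx w z + τ * dx (wt l) z * w z) =
          fun z => dx w z + τ * (dx (wt l) z * w z) := by funext y; ring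
      have hm : DifferentiableAt ℝ (fun z => dx (wt l) z * w z) z := (dpx z).mul (dw z)
      rw [e]
      show fderiv ℝ (fun z => dx w z + τ * (dx (wt l) z * w z)) z (0, 1, 0) = _
      rw [fderiv_fun_add (dwx z) (hm.const_mul τ), fderiv_const_mul hm]
      have h3 := IT_mul (0, 1, 0) (dx (wt l)) w z (dpx z) (dw z)
      have h4 : (fderiv ℝ (dx w) z + τ • fderiv ℝ (fun z => dx (wt l) z * w z) z) (0, 1, 0) =
          fderiv ℝ (dx w) z (0, 1, 0) + τ * fderiv ℝ (fun z => dx (wt l) z * w z) z (0, 1, 0) := rfl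
      rw [h4, h3]
      rfl
    rw [h2]
  have eWyy : dy (dy W) z = Real.exp (τ * wt l z) * ((dy (dy w) z + τ * (dy (dy (wt l)) z * w z
      + dy (wt l) z * dy w z)) + τ * dy (wt l) z * (dy w z + τ * dy (wt l) z * w z)) := by
    rw [eWy]
    have hg : DifferentiableAt ℝ (fun z => dy w z + τ * dy (wt l) z * w z) z := by fun_prop
    have h1 : dy (fun z => Real.exp (τ * wt l z) * (dy w z + τ * dy (wt l) z * w z)) z =
        Real.exp (τ * wt l z) * (dy (fun z => dy w z + τ * dy (wt l) z * w z) z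
          + τ * dy (wt l) z * (dy w z + τ * dy (wt l) z * w z)) := CJ_exp l τ _ z _ hg
    rw [h1]
    have h2 : dy (fun z => dy w z + τ * dy (wt l) z * w z) z = dy (dy w) z
        + τ * (dy (dy (wt l)) z * w z + dy (wt l) z * dy w z) := by
      have e : (fun z => dy w z + τ * dy (wt l) z * w z) =
          fun z => dy w z + τ * (dy (wt l) z * w z) := by funext y; ring
      have hm : DifferentiableAt ℝ (fun z => dy (wt l) z * w z) z := (dpy z).mul (dw z)
      rw [e]
      show fderiv ℝ (fun z => dy w z + τ * (dy (wt l) z * w z)) z (0, 0, 1) = _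
      rw [fderiv_fun_add (dwy z) (hm.const_mul τ), fderiv_const_mul hm]
      have h3 := IT_mul (0, 0, 1) (dy (wt l)) w z (dpy z) (dw z)
      have h4 : (fderiv ℝ (dy w) z + τ • fderiv ℝ (fun z => dy (wt l) z * w z) z) (0, 0, 1) =
          fderiv ℝ (dy w) z (0, 0, 1) + τ * fderiv ℝ (fun z => dy (wt l) z * w z) z (0, 0, 1) := rfl
      rw [h4, h3]
      rfl
    rw [h2]
  have ht : dt (wt l) z = -2 * z.1 := by unfold dt; rw [WT_wtv]; ring
  have hx : dx (wt l) z = (-(2 * l) * z.2.1) * Real.exp (-(l * rh z)) := by rw [WT_dx]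
  have hy : dy (wt l) z = (-(2 * l) * z.2.2) * Real.exp (-(l * rh z)) := by rw [WT_dy]
  have hWx : dx W z = Real.exp (τ * wt l z) * (dx w z + τ * dx (wt l) z * w z) := by rw [eWx]
  have hWy : dy W z = Real.exp (τ * wt l z) * (dy w z + τ * dy (wt l) z * w z) := by rw [eWy]
  have hWz : W z = Real.exp (τ * wt l z) * w z := rfl
  unfold conj heat
  rw [eWt, eWxx, eWyy, hWx, hWy, hWz, ht, WT_dxx, WT_dyy, hx, hy]
  unfold rh
  ring

end NS
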