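import Pool.Agent.helper58.NS.IT

/-!
# Project ns, module CX: the heat operator of a product
-/

namespace NS

open MeasureTheory Filter Topology Set

theorem CX_open (c : ℝ × ℝ) (R : ℝ) : IsOpen ((univ : Set ℝ) ×ˢ Dsc c R) := by
  apply isOpen_univ.prod
  unfold Dsc
  exact isOpen_lt (by fun_prop) continuous_const

theorem CX_two (v w : ℝ × ℝ × ℝ) (f g : ℝ × ℝ × ℝ → ℝ) (z : ℝ × ℝ × ℝ)
    (hf : ContDiffAt ℝ 2 f z) (hg : ContDiffAt ℝ 2 g z) :
    fderiv ℝ (fun y => fderiv ℝ (fun y => f y * g y) y v) z w =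
      fderiv ℝ (fun y => fderiv ℝ f y v) z w * g z + fderiv ℝ f z v * fderiv ℝ g z w
        + fderiv ℝ f z w * fderiv ℝ g z v + f z * fderiv ℝ (fun y => fderiv ℝ g y v) z w := by
  have e1 : (fun y => fderiv ℝ (fun y => f y * g y) y v) =ᶠ[𝓝 z]
      fun y => fderiv ℝ f y v * g y + f y * fderiv ℝ g y v := by
    filter_upwards [hf.eventually (by simp), hg.eventually (by simp)] with y h1 h2
    exact IT_mul v f g y (h1.differentiableAt (by norm_num)) (h2.differentiableAt (by norm_num))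
  rw [e1.fderiv_eq]
  have df : DifferentiableAt ℝ f z := hf.differentiableAt (by norm_num)
  have dg : DifferentiableAt ℝ g z := hg.differentiableAt (by norm_num)
  have ddf : DifferentiableAt ℝ (fun y => fderiv ℝ f y v) z :=
    ((hf.fderiv_right (m := 1) (by norm_num)).differentiableAt (by norm_num)).clm_apply
      (differentiableAt_const _)
  have ddg : DifferentiableAt ℝ (fun y => fderiv ℝ g y v) z :=
    ((hg.fderiv_right (m := 1) (by norm_num)).differentiableAt (by norm_num)).clm_apply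
      (differentiableAt_const _)
  have m1 : DifferentiableAt ℝ (fun y => fderiv ℝ f y v * g y) z := ddf.mul dg
  have m2 : DifferentiableAt ℝ (fun y => f y * fderiv ℝ g y v) z := df.mul ddg
  rw [fderiv_fun_add m1 m2]
  rw [ContinuousLinearMap.add_apply, IT_mul w _ _ z ddf dg, IT_mul w _ _ z df ddg]
  ring

theorem CX : CX_stmt := by
  intro R ν χ v hχ hc hs hv
  have hU : IsOpen ((univ : Set ℝ) ×ˢ Dsc 0 R) := CX_open 0 R
  have h0 : ∀ z, z ∉ (univ : Set ℝ) ×ˢ Dsc 0 R → (fun z => χ z * v z) =ᶠ[𝓝 z] fun _ => (0 : ℝ) := by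
    intro z hz
    have h1 : z ∉ tsupport χ := fun h => hz (hs h)
    have h2 : χ =ᶠ[𝓝 z] 0 := notMem_tsupport_iff_eventuallyEq.mp h1
    filter_upwards [h2] with y hy
    simp [hy]
  have hat : ∀ z ∈ (univ : Set ℝ) ×ˢ Dsc 0 R, ContDiffAt ℝ 2 v z := fun z hz =>
    (hv z hz).contDiffAt (hU.mem_nhds hz)
  have hχ2 : ∀ z, ContDiffAt ℝ 2 χ z := fun z => (hχ.of_le (WithTop.coe_le_coe.mpr (le_top : (2 : ℕ∞) ≤ ⊤))).contDiffAt
  refine ⟨?_, ?_, ?_, ?_⟩
  · rw [contDiff_iff_contDiffAt]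
    intro z
    by_cases hz : z ∈ (univ : Set ℝ) ×ˢ Dsc 0 R
    · exact (hχ2 z).mul (hat z hz)
    · exact contDiffAt_const.congr_of_eventuallyEq (h0 z hz)
  · exact hc.mul_right
  · intro t q hq
    have hz : ((t, q) : ℝ × ℝ × ℝ) ∈ (univ : Set ℝ) ×ˢ Dsc 0 R := ⟨mem_univ _, hq⟩
    have a1 := hχ2 (t, q)
    have a2 := hat (t, q) hz
    have d1 : DifferentiableAt ℝ χ (t, q) := a1.differentiableAt (by norm_num)
    have d2 : DifferentiableAt ℝ v (t, q) := a2.differentiableAt (by norm_num)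
    refine ⟨?_, ?_, ?_⟩
    · unfold heat
      have e1 : dt (fun z => χ z * v z) (t, q) = dt χ (t, q) * v (t, q) + χ (t, q) * dt v (t, q) :=
        IT_mul _ χ v _ d1 d2
      have e2 : dx (dx (fun z => χ z * v z)) (t, q) = dx (dx χ) (t, q) * v (t, q)
          + dx χ (t, q) * dx v (t, q) + dx χ (t, q) * dx v (t, q) + χ (t, q) * dx (dx v) (t, q) :=
        CX_two _ _ χ v _ a1 a2
      have e3 : dy (dy (fun z => χ z * v z)) (t, q) = dy (dy χ) (t, q) * v (t, q)
          + dy χ (t, q) * dy v (t, q) + dy χ (t, q) * dy v (t, q) + χ (t, q) * dy (dy v) (t, q) :=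
        CX_two _ _ χ v _ a1 a2
      rw [e1, e2, e3]
      ring
    · have e : dx (fun z => χ z * v z) (t, q) = dx χ (t, q) * v (t, q) + χ (t, q) * dx v (t, q) :=
        IT_mul _ χ v _ d1 d2
      rw [e]; ring
    · have e : dy (fun z => χ z * v z) (t, q) = dy χ (t, q) * v (t, q) + χ (t, q) * dy v (t, q) :=
        IT_mul _ χ v _ d1 d2
      rw [e]; ring
  · intro z hz
    have key : ∀ u : ℝ × ℝ × ℝ, (fun y => fderiv ℝ (fun z => χ z * v z) y u) =ᶠ[𝓝 z]
        fun _ => (0 : ℝ) := by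
      intro u
      filter_upwards [(h0 z hz).eventuallyEq_nhds] with y hy
      rw [hy.fderiv_eq]
      simp
    have k1 : ∀ u, fderiv ℝ (fun z => χ z * v z) z u = 0 := fun u => (key u).eq_of_nhds
    have k2 : ∀ u w, fderiv ℝ (fun y => fderiv ℝ (fun z => χ z * v z) y u) z w = 0 := by
      intro u w
      rw [(key u).fderiv_eq]
      simp
    refine ⟨?_, k1 _, k1 _⟩
    unfold heat
    have e1 : dt (fun z => χ z * v z) z = 0 := k1 _
    have e2 : dx (dx (fun z => χ z * v z)) z = 0 := k2 _ _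
    have e3 : dy (dy (fun z => χ z * v z)) z = 0 := k2 _ _
    rw [e1, e2, e3]
    ring

end NS
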