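import Pool.Agent.helper58.NS.WT

/-!
# Project ns, module CZ: the estimate for the conjugated operator
-/

namespace NS

open MeasureTheory Filter Topology Set

theorem CZ_supp (v : ℝ × ℝ × ℝ) (f : ℝ × ℝ × ℝ → ℝ) :
    tsupport (fun z => fderiv ℝ f z v) ⊆ tsupport f := by
  apply closure_minimal _ isClosed_closure
  intro z hz
  have h1 : fderiv ℝ f z ≠ 0 := by
    intro h
    apply hz
    show fderiv ℝ f z v = 0
    rw [h]; rfl
  exact support_fderiv_subset ℝ h1

theorem CZ_z1 (v : ℝ × ℝ × ℝ) (f : ℝ × ℝ × ℝ → ℝ) (z : ℝ × ℝ × ℝ) (hz : z ∉ tsupport f) :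
    fderiv ℝ f z v = 0 := by
  by_contra h
  exact hz (CZ_supp v f (subset_tsupport _ h))

theorem CZ_z2 (v u : ℝ × ℝ × ℝ) (f : ℝ × ℝ × ℝ → ℝ) (z : ℝ × ℝ × ℝ) (hz : z ∉ tsupport f) :
    fderiv ℝ (fun z => fderiv ℝ f z v) z u = 0 :=
  CZ_z1 u _ z fun h => hz (CZ_supp v f h)

theorem CZ_zero (W : ℝ × ℝ × ℝ → ℝ) (z : ℝ × ℝ × ℝ) (hz : z ∉ tsupport W) :
    W z = 0 ∧ dt W z = 0 ∧ dx W z = 0 ∧ dy W z = 0 ∧ dx (dx W) z = 0 ∧ dy (dy W) z = 0 :=
  ⟨by by_contra h; exact hz (subset_tsupport _ h), CZ_z1 _ W z hz, CZ_z1 _ W z hz,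
    CZ_z1 _ W z hz, CZ_z2 _ _ W z hz, CZ_z2 _ _ W z hz⟩

theorem CZ_split (ν l τ : ℝ) (W : ℝ × ℝ × ℝ → ℝ) (z : ℝ × ℝ × ℝ) :
    conj ν l τ W z = opS ν l τ W z + opA ν l τ W z := by
  unfold conj opS opA
  ring

theorem CZ : CZ_stmt := by
  intro ν l ε R hν hl hε hεR hlε
  obtain ⟨c1, c2, hc1, hc2, hWT⟩ := WT ν l
  have hR : 0 < R := hε.trans hεR
  set e0 : ℝ := Real.exp (-(l * R ^ 2)) with he0
  have he0p : 0 < e0 := Real.exp_pos _
  set a0 : ℝ := 32 * ν ^ 2 * l ^ 3 * ε ^ 2 * e0 ^ 3 with ha0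
  have ha0p : 0 < a0 := by positivity
  -- bound of c1, c2
  have hK : IsCompact (Icc (-2 : ℝ) 2 ×ˢ (Icc (-R) R ×ˢ Icc (-R) R)) :=
    isCompact_Icc.prod (isCompact_Icc.prod isCompact_Icc)
  obtain ⟨M1, hM1⟩ := hK.exists_bound_of_continuousOn hc1.continuousOn
  obtain ⟨M2, hM2⟩ := hK.exists_bound_of_continuousOn hc2.continuousOn
  set M : ℝ := |M1| + |M2| with hM
  have hM0 : 0 ≤ M := by positivity
  refine ⟨min (a0 / 2) (8 * ν ^ 2 * l * e0), max 1 (4 * M / a0), ?_, le_max_left _ _, ?_⟩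
  · exact lt_min (by positivity) (by positivity)
  intro τ hτ W hW hc hsupp
  have hτ1 : 1 ≤ τ := (le_max_left _ _).trans hτ
  have hτ2 : 4 * M / a0 ≤ τ := (le_max_right _ _).trans hτ
  have hτM : 4 * M ≤ τ * a0 := by rwa [div_le_iff₀ ha0p] at hτ2
  set c : ℝ := min (a0 / 2) (8 * ν ^ 2 * l * e0) with hcdef
  have hca : c ≤ a0 / 2 := min_le_left _ _
  have hcb : c ≤ 8 * ν ^ 2 * l * e0 := min_le_right _ _
  have hW1 : ContDiff ℝ 1 W := hW.of_le (by norm_num)
  have hts : tsupport W ⊆ {z | |z.1| ≤ 2 ∧ ε ^ 2 ≤ rh z ∧ rh z ≤ R ^ 2} := by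
    apply closure_minimal
    · intro z hz; exact hsupp z hz
    · have crh : Continuous rh := WT_rhd.continuous
      refine (isClosed_le (continuous_abs.comp continuous_fst) continuous_const).inter
        ((isClosed_le continuous_const crh).inter (isClosed_le crh continuous_const))
  have cW := hW.continuous
  have cWx := (IT_dx1 hW).continuous
  have cWy := (IT_dy1 hW).continuous
  have cWt := (IT_dt1 hW).continuous
  have cWxx := IT_dxc (IT_dx1 hW)
  have cWyy := IT_dyc (IT_dy1 hW)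
  have crh : Continuous rh := WT_rhd.continuous
  have cE : Continuous (fun z => Real.exp (-(l * rh z))) := (WT_E3 l).continuous
  have cm : Continuous (mm l) := (WT_m3 l).continuous
  have cS : Continuous (opS ν l τ W) := by unfold opS; fun_prop
  have cA : Continuous (opA ν l τ W) := by unfold opA; fun_prop
  have cs : ∀ f : ℝ × ℝ × ℝ → ℝ, (∀ z, z ∉ tsupport W → f z = 0) → HasCompactSupport f :=
    fun f hf => HasCompactSupport.intro hc hf
  have hS0 : ∀ z, z ∉ tsupport W → opS ν l τ W z = 0 := by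
    intro z hz
    obtain ⟨h1, h2, h3, h4, h5, h6⟩ := CZ_zero W z hz
    unfold opS
    rw [h1, h5, h6]
    ring
  have hA0 : ∀ z, z ∉ tsupport W → opA ν l τ W z = 0 := by
    intro z hz
    obtain ⟨h1, h2, h3, h4, h5, h6⟩ := CZ_zero W z hz
    unfold opA
    rw [h1, h2, h3, h4]
    ring
  have iSA : Integrable (fun z => opS ν l τ W z * opA ν l τ W z) :=
    IT_int (cS.mul cA) (cs _ fun z hz => by rw [hS0 z hz, zero_mul])
  have iC : Integrable (fun z => conj ν l τ W z ^ 2) := by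
    have e : (fun z => conj ν l τ W z ^ 2) = fun z => (opS ν l τ W z + opA ν l τ W z) ^ 2 := by
      funext z; rw [CZ_split]
    rw [e]
    exact IT_int ((cS.add cA).pow 2) (cs _ fun z hz => by rw [hS0 z hz, hA0 z hz]; ring)
  have h1 : 2 * ∫ z, opS ν l τ W z * opA ν l τ W z ≤ ∫ z, conj ν l τ W z ^ 2 := by
    rw [← integral_const_mul]
    apply integral_mono (iSA.const_mul 2) iC
    intro z
    simp only [CZ_split]
    nlinarith [sq_nonneg (opS ν l τ W z), sq_nonneg (opA ν l τ W z)]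
  refine le_trans ?_ h1
  rw [hWT τ W hW hc]
  -- pointwise facts on the support
  have hpt : ∀ z ∈ tsupport W, 1 ≤ l * rh z - 1 ∧ ε ^ 2 ≤ rh z ∧
      e0 ≤ Real.exp (-(l * rh z)) ∧ |c1 z| ≤ M ∧ |c2 z| ≤ M := by
    intro z hz
    obtain ⟨b1, b2, b3⟩ := hts hz
    have hmem : z ∈ Icc (-2 : ℝ) 2 ×ˢ (Icc (-R) R ×ˢ Icc (-R) R) := by
      have hx : |z.2.1| ≤ R := by
        apply abs_le_of_sq_le_sq _ hR.le
        unfold rh at b3
        nlinarith [sq_nonneg z.2.2]
      have hy : |z.2.2| ≤ R := by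
        apply abs_le_of_sq_le_sq _ hR.le
        unfold rh at b3
        nlinarith [sq_nonneg z.2.1]
      exact ⟨abs_le.mp b1, abs_le.mp hx, abs_le.mp hy⟩
    refine ⟨?_, b2, ?_, ?_, ?_⟩
    · have := mul_le_mul_of_nonneg_left b2 hl.le
      linarith
    · rw [he0]
      apply Real.exp_le_exp.mpr
      have := mul_le_mul_of_nonneg_left b3 hl.le
      linarith
    · have := hM1 z hmem
      rw [Real.norm_eq_abs] at this
      exact this.trans ((le_abs_self M1).trans (by rw [hM]; linarith [abs_nonneg M2]))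
    · have := hM2 z hmem
      rw [Real.norm_eq_abs] at this
      exact this.trans ((le_abs_self M2).trans (by rw [hM]; linarith [abs_nonneg M1]))
  have hcx0 : HasCompactSupport (dx W) := IT_cs _ hc
  have hcy0 : HasCompactSupport (dy W) := IT_cs _ hc
  -- gradient part
  have ig : Integrable (fun z => dx W z ^ 2 + dy W z ^ 2) :=
    IT_int (by fun_prop) ((IT_sq hcx0).add (IT_sq hcy0))
  have iG : Integrable (fun z => (8 * l ^ 2 * rh z - 8 * l) * Real.exp (-(l * rh z))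
          * (dx W z ^ 2 + dy W z ^ 2)
        + 16 * l ^ 2 * Real.exp (-(l * rh z)) * (z.2.1 * dx W z + z.2.2 * dy W z) ^ 2) := by
    apply IT_int (by fun_prop)
    apply cs
    intro z hz
    obtain ⟨h1, h2, h3, h4, h5, h6⟩ := CZ_zero W z hz
    rw [h3, h4]
    ring
  have hgrad : c * (τ * ∫ z, (dx W z ^ 2 + dy W z ^ 2)) ≤
      ν ^ 2 * τ * (∫ z, ((8 * l ^ 2 * rh z - 8 * l) * Real.exp (-(l * rh z))
          * (dx W z ^ 2 + dy W z ^ 2)
        + 16 * l ^ 2 * Real.exp (-(l * rh z)) * (z.2.1 * dx W z + z.2.2 * dy W z) ^ 2)) := by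
    have hle : (8 * l * e0) * (∫ z, (dx W z ^ 2 + dy W z ^ 2)) ≤
        ∫ z, ((8 * l ^ 2 * rh z - 8 * l) * Real.exp (-(l * rh z))
          * (dx W z ^ 2 + dy W z ^ 2)
        + 16 * l ^ 2 * Real.exp (-(l * rh z)) * (z.2.1 * dx W z + z.2.2 * dy W z) ^ 2) := by
      rw [← integral_const_mul]
      apply integral_mono (ig.const_mul _) iG
      intro z
      simp only
      by_cases hz : z ∈ tsupport W
      · obtain ⟨b1, b2, b3, b4, b5⟩ := hpt z hz
        have hg0 : 0 ≤ dx W z ^ 2 + dy W z ^ 2 := by positivity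
        have e1 : 8 * l * e0 ≤ (8 * l ^ 2 * rh z - 8 * l) * Real.exp (-(l * rh z)) := by
          have e2 : (8 * l ^ 2 * rh z - 8 * l) * Real.exp (-(l * rh z)) =
              8 * l * ((l * rh z - 1) * Real.exp (-(l * rh z))) := by ring
          rw [e2]
          apply mul_le_mul_of_nonneg_left _ (by positivity)
          calc e0 = 1 * e0 := by ring
            _ ≤ (l * rh z - 1) * Real.exp (-(l * rh z)) :=
              mul_le_mul b1 b3 he0p.le (by linarith)
        have e3 : 0 ≤ 16 * l ^ 2 * Real.exp (-(l * rh z))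
            * (z.2.1 * dx W z + z.2.2 * dy W z) ^ 2 := by positivity
        have e4 := mul_le_mul_of_nonneg_right e1 hg0
        linarith
      · obtain ⟨h1, h2, h3, h4, h5, h6⟩ := CZ_zero W z hz
        rw [h3, h4]
        simp
    have hI0 : 0 ≤ ∫ z, (dx W z ^ 2 + dy W z ^ 2) :=
      integral_nonneg fun z => by positivity
    calc c * (τ * ∫ z, (dx W z ^ 2 + dy W z ^ 2))
        ≤ (8 * ν ^ 2 * l * e0) * (τ * ∫ z, (dx W z ^ 2 + dy W z ^ 2)) :=
          mul_le_mul_of_nonneg_right hcb (by positivity)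
      _ = ν ^ 2 * τ * ((8 * l * e0) * (∫ z, (dx W z ^ 2 + dy W z ^ 2))) := by ring
      _ ≤ _ := mul_le_mul_of_nonneg_left hle (by positivity)
  -- zero order part
  have i0 : Integrable (fun z => W z ^ 2) := IT_int (by fun_prop) (IT_sq hc)
  have iZ : Integrable (fun z => (ν ^ 2 * τ ^ 3 * (8 * l * (l * rh z - 1) * Real.exp (-(l * rh z))
          * (4 * l ^ 2 * rh z * Real.exp (-(l * rh z)) ^ 2)) + τ ^ 2 * c2 z + τ * c1 z)
          * W z ^ 2) := IT_int (by fun_prop) (IT_sq hc).mul_left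
  have hzero : c * (τ ^ 3 * ∫ z, W z ^ 2) ≤
      ∫ z, (ν ^ 2 * τ ^ 3 * (8 * l * (l * rh z - 1) * Real.exp (-(l * rh z))
          * (4 * l ^ 2 * rh z * Real.exp (-(l * rh z)) ^ 2)) + τ ^ 2 * c2 z + τ * c1 z)
          * W z ^ 2 := by
    have hI0 : 0 ≤ ∫ z, W z ^ 2 := integral_nonneg fun z => by positivity
    have hle : (τ ^ 3 * (a0 / 2)) * (∫ z, W z ^ 2) ≤
      ∫ z, (ν ^ 2 * τ ^ 3 * (8 * l * (l * rh z - 1) * Real.exp (-(l * rh z))
          * (4 * l ^ 2 * rh z * Real.exp (-(l * rh z)) ^ 2)) + τ ^ 2 * c2 z + τ * c1 z)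
          * W z ^ 2 := by
      rw [← integral_const_mul]
      apply integral_mono (i0.const_mul _) iZ
      intro z
      simp only
      by_cases hz : z ∈ tsupport W
      · obtain ⟨b1, b2, b3, b4, b5⟩ := hpt z hz
        apply mul_le_mul_of_nonneg_right _ (sq_nonneg _)
        have hEp : 0 < Real.exp (-(l * rh z)) := Real.exp_pos _
        have hrh : 0 < rh z := lt_of_lt_of_le (by positivity) b2
        have e1 : e0 ^ 3 * ε ^ 2 ≤ (l * rh z - 1) * (Real.exp (-(l * rh z)) ^ 3 * rh z) := by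
          calc e0 ^ 3 * ε ^ 2 = 1 * (e0 ^ 3 * ε ^ 2) := by ring
            _ ≤ (l * rh z - 1) * (Real.exp (-(l * rh z)) ^ 3 * rh z) := by
              apply mul_le_mul b1 _ (by positivity) (by linarith)
              exact mul_le_mul (pow_le_pow_left₀ he0p.le b3 3) b2 (by positivity) (by positivity)
        have e2 : τ ^ 3 * a0 ≤ ν ^ 2 * τ ^ 3 * (8 * l * (l * rh z - 1) * Real.exp (-(l * rh z))
          * (4 * l ^ 2 * rh z * Real.exp (-(l * rh z)) ^ 2)) := by
          have e3 : ν ^ 2 * τ ^ 3 * (8 * l * (l * rh z - 1) * Real.exp (-(l * rh z))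
          * (4 * l ^ 2 * rh z * Real.exp (-(l * rh z)) ^ 2)) = (32 * ν ^ 2 * τ ^ 3 * l ^ 3) *
            ((l * rh z - 1) * (Real.exp (-(l * rh z)) ^ 3 * rh z)) := by ring
          have e4 : τ ^ 3 * a0 = (32 * ν ^ 2 * τ ^ 3 * l ^ 3) * (e0 ^ 3 * ε ^ 2) := by
            rw [ha0]; ring
          rw [e3, e4]
          exact mul_le_mul_of_nonneg_left e1 (by positivity)
        have f1 := (abs_le.mp b4).1
        have f2 := (abs_le.mp b5).1
        have hτ0 : 0 < τ := by linarith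
        have g1 : -(τ ^ 2 * M) ≤ τ ^ 2 * c2 z := by
          have k := mul_le_mul_of_nonneg_left f2 (sq_nonneg τ)
          linarith
        have g2 : -(τ ^ 2 * M) ≤ τ * c1 z := by
          have k1 := mul_le_mul_of_nonneg_left f1 hτ0.le
          have k2 := mul_nonneg (mul_nonneg hτ0.le hM0) (sub_nonneg.mpr hτ1)
          have k3 : τ * M * (τ - 1) = τ ^ 2 * M - τ * M := by ring
          linarith
        have g3 : τ ^ 2 * (4 * M) ≤ τ ^ 2 * (τ * a0) :=
          mul_le_mul_of_nonneg_left hτM (sq_nonneg τ)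
        have g4 : τ ^ 3 * a0 = τ ^ 2 * (τ * a0) := by ring
        linarith
      · obtain ⟨h1, h2, h3, h4, h5, h6⟩ := CZ_zero W z hz
        rw [h1]
        simp
    calc c * (τ ^ 3 * ∫ z, W z ^ 2) ≤ (a0 / 2) * (τ ^ 3 * ∫ z, W z ^ 2) :=
          mul_le_mul_of_nonneg_right hca (by positivity)
      _ = (τ ^ 3 * (a0 / 2)) * (∫ z, W z ^ 2) := by ring
      _ ≤ _ := hle
  linarith

end NS
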