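import Pool.Agent.helper58.NS.CJ
import Pool.Agent.helper58.NS.CZ

/-!
# Project ns, module CE: the Carleman estimate
-/

namespace NS

open MeasureTheory Filter Topology Set

/-- the Carleman estimate with the intended parentheses -/
theorem CE_aux (hCW : CW_stmt) (ν l ε R : ℝ) (hν : 0 < ν) (hl : 0 < l) (hε : 0 < ε) (hεR : ε < R)
    (hlε : 2 ≤ l * ε ^ 2) :
    ∃ C : ℝ, ∃ τ0 : ℝ, 0 < C ∧ 1 ≤ τ0 ∧ ∀ τ, τ0 ≤ τ → ∀ w : ℝ × ℝ × ℝ → ℝ, ContDiff ℝ 2 w →
    HasCompactSupport w → (∀ z, w z ≠ 0 → |z.1| ≤ 2 ∧ ε ^ 2 ≤ rh z ∧ rh z ≤ R ^ 2) →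
    τ ^ 3 * (∫ z, Real.exp (2 * τ * wt l z) * w z ^ 2)
      + τ * (∫ z, Real.exp (2 * τ * wt l z) * (dx w z ^ 2 + dy w z ^ 2))
    ≤ C * ∫ z, Real.exp (2 * τ * wt l z) * heat ν w z ^ 2 := by
  obtain ⟨c, τ0, hc, hτ0, hCZ⟩ := CZ ν l ε R hν hl hε hεR hlε
  have hR : 0 < R := hε.trans hεR
  refine ⟨(3 + 8 * l ^ 2 * R ^ 2) / c, τ0, by positivity, hτ0, ?_⟩
  intro τ hτ w hw hcw hsupp
  have hτp : 0 < τ := by linarith
  obtain ⟨hW, hcW, hgr⟩ := hCW l τ w hw hcw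
  set W : ℝ × ℝ × ℝ → ℝ := fun z => Real.exp (τ * wt l z) * w z with hWdef
  have hWs : ∀ z, W z ≠ 0 → |z.1| ≤ 2 ∧ ε ^ 2 ≤ rh z ∧ rh z ≤ R ^ 2 := by
    intro z hz
    apply hsupp z
    intro h
    apply hz
    rw [hWdef]
    simp [h]
  have key := hCZ τ hτ W hW hcW hWs
  have hexp : ∀ z, Real.exp (2 * τ * wt l z) = Real.exp (τ * wt l z) ^ 2 := by
    intro z
    rw [← Real.exp_nat_mul]
    congr 1
    push_cast
    ring
  have e1 : (fun z => conj ν l τ W z ^ 2) =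
      fun z => Real.exp (2 * τ * wt l z) * heat ν w z ^ 2 := by
    funext z
    rw [hWdef, CJ ν l τ w hw z, hexp]
    ring
  rw [e1] at key
  have e2 : (fun z => Real.exp (2 * τ * wt l z) * w z ^ 2) = fun z => W z ^ 2 := by
    funext z
    rw [hexp, hWdef]
    ring
  rw [e2]
  have cW := hW.continuous
  have cWx := (IT_dx1 hW).continuous
  have cWy := (IT_dy1 hW).continuous
  have cw := hw.continuous
  have cwx := (IT_dx1 hw).continuous
  have cwy := (IT_dy1 hw).continuous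
  have cwt : Continuous (wt l) := (WT_wt3 l).continuous
  have hcx0 : HasCompactSupport (dx W) := IT_cs _ hcW
  have hcy0 : HasCompactSupport (dy W) := IT_cs _ hcW
  have hcx1 : HasCompactSupport (dx w) := IT_cs _ hcw
  have hcy1 : HasCompactSupport (dy w) := IT_cs _ hcw
  have i0 : Integrable (fun z => W z ^ 2) := IT_int (by fun_prop) (IT_sq hcW)
  have ig : Integrable (fun z => dx W z ^ 2 + dy W z ^ 2) :=
    IT_int (by fun_prop) ((IT_sq hcx0).add (IT_sq hcy0))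
  have iw : Integrable (fun z => Real.exp (2 * τ * wt l z) * (dx w z ^ 2 + dy w z ^ 2)) :=
    IT_int (by fun_prop) ((IT_sq hcx1).add (IT_sq hcy1)).mul_left
  have hI0 : 0 ≤ ∫ z, W z ^ 2 := integral_nonneg fun z => by positivity
  have hIg : 0 ≤ ∫ z, (dx W z ^ 2 + dy W z ^ 2) := integral_nonneg fun z => by positivity
  have hgrad : (∫ z, Real.exp (2 * τ * wt l z) * (dx w z ^ 2 + dy w z ^ 2)) ≤
      2 * (∫ z, (dx W z ^ 2 + dy W z ^ 2)) + (8 * τ ^ 2 * l ^ 2 * R ^ 2) * ∫ z, W z ^ 2 := by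
    rw [← integral_const_mul, ← integral_const_mul, ← integral_add (ig.const_mul 2)
      (i0.const_mul _)]
    apply integral_mono iw ((ig.const_mul 2).add (i0.const_mul _))
    intro z
    simp only [Pi.add_apply]
    obtain ⟨g1, g2⟩ := hgr z
    by_cases hz : rh z ≤ R ^ 2
    · rw [hexp]
      have f1 : Real.exp (τ * wt l z) ^ 2 * (dx w z ^ 2 + dy w z ^ 2) =
          (Real.exp (τ * wt l z) * dx w z) ^ 2 + (Real.exp (τ * wt l z) * dy w z) ^ 2 := by ring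
      rw [f1, g1, g2]
      have hWz : Real.exp (τ * wt l z) * w z = W z := rfl
      have hdx : dx (fun z => Real.exp (τ * wt l z) * w z) z = dx W z := rfl
      have hdy : dy (fun z => Real.exp (τ * wt l z) * w z) z = dy W z := rfl
      rw [hWz]
      have hE1 : Real.exp (-(l * rh z)) ≤ 1 := by
        apply Real.exp_le_one_iff.mpr
        have : 0 ≤ rh z := by unfold rh; positivity
        have := mul_nonneg hl.le this
        linarith
      have hE0 : 0 < Real.exp (-(l * rh z)) := Real.exp_pos _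
      set E := Real.exp (-(l * rh z)) with hE
      have hE2 : E ^ 2 ≤ 1 := by nlinarith
      have hrh : rh z = z.2.1 ^ 2 + z.2.2 ^ 2 := rfl
      have s1 : ∀ a b : ℝ, (a + b) ^ 2 ≤ 2 * a ^ 2 + 2 * b ^ 2 := fun a b => by
        nlinarith [sq_nonneg (a - b)]
      have t1 := s1 (dx W z) (2 * τ * l * z.2.1 * E * W z)
      have t2 := s1 (dy W z) (2 * τ * l * z.2.2 * E * W z)
      have t3 : 2 * (2 * τ * l * z.2.1 * E * W z) ^ 2 + 2 * (2 * τ * l * z.2.2 * E * W z) ^ 2 =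
          (8 * τ ^ 2 * l ^ 2 * W z ^ 2) * (rh z * E ^ 2) := by rw [hrh]; ring
      have t4 : rh z * E ^ 2 ≤ R ^ 2 := by
        have h0 : 0 ≤ rh z := by unfold rh; positivity
        calc rh z * E ^ 2 ≤ rh z * 1 := mul_le_mul_of_nonneg_left hE2 h0
          _ ≤ R ^ 2 := by linarith
      have t5 := mul_le_mul_of_nonneg_left t4 (by positivity : 0 ≤ 8 * τ ^ 2 * l ^ 2 * W z ^ 2)
      nlinarith [t1, t2, t3, t5]
    · have hz' : z ∉ tsupport w := by
        intro hmem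
        apply hz
        have hts : tsupport w ⊆ {z | rh z ≤ R ^ 2} := by
          apply closure_minimal
          · intro y hy; exact (hsupp y hy).2.2
          · exact isClosed_le WT_rhd.continuous continuous_const
        exact hts hmem
      obtain ⟨h1, h2, h3, h4, h5, h6⟩ := CZ_zero w z hz'
      rw [h3, h4]
      have : 0 ≤ 2 * (dx W z ^ 2 + dy W z ^ 2) + 8 * τ ^ 2 * l ^ 2 * R ^ 2 * W z ^ 2 := by
        positivity
      simpa using this
  set I0 := ∫ z, W z ^ 2 with hI0def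
  set I1 := ∫ z, (dx W z ^ 2 + dy W z ^ 2) with hI1def
  set Iw := ∫ z, Real.exp (2 * τ * wt l z) * (dx w z ^ 2 + dy w z ^ 2) with hIw
  set Ih := ∫ z, Real.exp (2 * τ * wt l z) * heat ν w z ^ 2 with hIh
  have hstep : τ ^ 3 * I0 + τ * Iw ≤ (3 + 8 * l ^ 2 * R ^ 2) * (τ ^ 3 * I0 + τ * I1) := by
    have k1 := mul_le_mul_of_nonneg_left hgrad hτp.le
    have k2 : τ * (2 * I1 + 8 * τ ^ 2 * l ^ 2 * R ^ 2 * I0) =
        2 * (τ * I1) + 8 * l ^ 2 * R ^ 2 * (τ ^ 3 * I0) := by ring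
    have k3 : 0 ≤ τ * I1 := by positivity
    have k4 : 0 ≤ τ ^ 3 * I0 := by positivity
    have k5 : 0 ≤ 8 * l ^ 2 * R ^ 2 * (τ * I1) := by positivity
    nlinarith
  have hkey2 : c * (τ ^ 3 * I0 + τ * I1) ≤ Ih := by linarith
  calc τ ^ 3 * I0 + τ * Iw ≤ (3 + 8 * l ^ 2 * R ^ 2) * (τ ^ 3 * I0 + τ * I1) := hstep
    _ = (3 + 8 * l ^ 2 * R ^ 2) / c * (c * (τ ^ 3 * I0 + τ * I1)) := by field_simp
    _ ≤ (3 + 8 * l ^ 2 * R ^ 2) / c * Ih := mul_le_mul_of_nonneg_left hkey2 (by positivity)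

theorem CE (hCW : CW_stmt) : CE_stmt := fun ν l ε R h1 h2 h3 h4 h5 =>
  CE_aux hCW ν l ε R h1 h2 h3 h4 h5

end NS
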