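import Pool.Agent.helper58.NS.IT

/-!
# Project ns, module I1
-/

namespace NS

open MeasureTheory Filter Topology Set

theorem I1 (hIB : IB_stmt) : I1_stmt := by
  intro W hW hc
  have hx1 := IT_dx1 hW
  have hy1 := IT_dy1 hW
  have ht1 := IT_dt1 hW
  have hcx : HasCompactSupport (dx W) := IT_cs _ hc
  have hcy : HasCompactSupport (dy W) := IT_cs _ hc
  have hct : HasCompactSupport (dt W) := IT_cs _ hc
  have ex : (fun z => dx W z * dx (dt W) z) = fun z => dx W z * dt (dx W) z := by
    funext z
    have := IT_comm (1, 0, 0) (0, 1, 0) W hW z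
    unfold dx dt
    rw [this]
  have ey : (fun z => dy W z * dy (dt W) z) = fun z => dy W z * dt (dy W) z := by
    funext z
    have := IT_comm (1, 0, 0) (0, 0, 1) W hW z
    unfold dy dt
    rw [this]
  have a1 := (hIB (dx W) (dt W) hx1 ht1 hct).2.1
  have a2 := (hIB (dy W) (dt W) hy1 ht1 hct).2.2
  rw [ex] at a1
  rw [ey] at a2
  have b1 := (hIB (dx W) (dx W) hx1 hx1 hcx).1
  have b2 := (hIB (dy W) (dy W) hy1 hy1 hcy).1
  have c1 : ∫ z, dt (dx W) z * dx W z = ∫ z, dx W z * dt (dx W) z := by
    congr 1; funext z; ring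
  have c2 : ∫ z, dt (dy W) z * dy W z = ∫ z, dy W z * dt (dy W) z := by
    congr 1; funext z; ring
  have i1 : Integrable (fun z => dx (dx W) z * dt W z) :=
    IT_int ((IT_dxc hx1).mul ht1.continuous) hct.mul_left
  have i2 : Integrable (fun z => dy (dy W) z * dt W z) :=
    IT_int ((IT_dyc hy1).mul ht1.continuous) hct.mul_left
  have e : (fun z => (dx (dx W) z + dy (dy W) z) * dt W z) =
      fun z => dx (dx W) z * dt W z + dy (dy W) z * dt W z := by
    funext z; ring
  rw [e, integral_add i1 i2, a1, a2]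
  linarith

end NS
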