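import Pool.Agent.helper58.NS.IT

/-!
# Project ns, module I2
-/

namespace NS

open MeasureTheory Filter Topology Set

/-- the identity with the intended parentheses -/
theorem I2_aux (hIB : IB_stmt) (W φ : ℝ × ℝ × ℝ → ℝ) (hW : ContDiff ℝ 2 W)
    (hc : HasCompactSupport W) (hφ : ContDiff ℝ 3 φ) :
    ∫ z, (dx (dx W) z + dy (dy W) z) * (dx φ z * dx W z + dy φ z * dy W z)
    = -(∫ z, (dx (dx φ) z * dx W z ^ 2 + 2 * dx (dy φ) z * dx W z * dy W z
        + dy (dy φ) z * dy W z ^ 2))
      + 1 / 2 * ∫ z, (dx (dx φ) z + dy (dy φ) z) * (dx W z ^ 2 + dy W z ^ 2) := by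
  have hW1 : ContDiff ℝ 1 W := hW.of_le (by norm_num)
  have hφ2 : ContDiff ℝ 2 φ := hφ.of_le (by norm_num)
  have hx1 := IT_dx1 hW
  have hy1 := IT_dy1 hW
  have px1 := IT_dx1 hφ2
  have py1 := IT_dy1 hφ2
  have hcx : HasCompactSupport (dx W) := IT_cs _ hc
  have hcy : HasCompactSupport (dy W) := IT_cs _ hc
  have dWx : Differentiable ℝ (dx W) := hx1.differentiable (by norm_num)
  have dWy : Differentiable ℝ (dy W) := hy1.differentiable (by norm_num)
  have dpx : Differentiable ℝ (dx φ) := px1.differentiable (by norm_num)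
  have dpy : Differentiable ℝ (dy φ) := py1.differentiable (by norm_num)
  have cW : ∀ z, dy (dx W) z = dx (dy W) z := fun z => IT_comm (0, 1, 0) (0, 0, 1) W hW z
  have cφ : ∀ z, dy (dx φ) z = dx (dy φ) z := fun z => IT_comm (0, 1, 0) (0, 0, 1) φ hφ2 z
  -- pure terms
  have A1 := IT_x hIB px1 hx1 hcx
  have A2 := IT_y hIB py1 hy1 hcy
  have B1 := IT_y hIB py1 hx1 hcx
  have B2 := IT_x hIB px1 hy1 hcy
  -- mixed terms
  have m1 : ContDiff ℝ 1 (fun z => dy φ z * dy W z) := py1.mul hy1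
  have m2 : ContDiff ℝ 1 (fun z => dx φ z * dx W z) := px1.mul hx1
  have C1 := (hIB (dx W) (fun z => dy φ z * dy W z) hx1 m1 hcy.mul_left).2.1
  have C2 := (hIB (dy W) (fun z => dx φ z * dx W z) hy1 m2 hcx.mul_left).2.2
  have e1 : (fun z => dx W z * dx (fun z => dy φ z * dy W z) z) =
      fun z => dx (dy φ) z * dx W z * dy W z + dy φ z * (dx W z * dy (dx W) z) := by
    funext z
    have h2 : dx (fun z => dy φ z * dy W z) z = dx (dy φ) z * dy W z + dy φ z * dx (dy W) z :=
      IT_mul (0, 1, 0) (dy φ) (dy W) z (dpy z) (dWy z)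
    rw [h2, cW z]
    ring
  have e2 : (fun z => dy W z * dy (fun z => dx φ z * dx W z) z) =
      fun z => dx (dy φ) z * dx W z * dy W z + dx φ z * (dy W z * dx (dy W) z) := by
    funext z
    have h2 : dy (fun z => dx φ z * dx W z) z = dy (dx φ) z * dx W z + dx φ z * dy (dx W) z :=
      IT_mul (0, 0, 1) (dx φ) (dx W) z (dpx z) (dWx z)
    rw [h2, cW z, cφ z]
    ring
  have cx := hx1.continuous
  have cy := hy1.continuous
  have cpx := px1.continuous
  have cpy := py1.continuous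
  have cxx := IT_dxc hx1
  have cyy := IT_dyc hy1
  have cyx := IT_dyc hx1
  have cxy := IT_dxc hy1
  have cpxx := IT_dxc px1
  have cpyy := IT_dyc py1
  have cpxy := IT_dxc py1
  have j0 : Integrable (fun z => dx (dy φ) z * dx W z * dy W z) :=
    IT_int ((cpxy.mul cx).mul cy) hcy.mul_left
  have j1 : Integrable (fun z => dy φ z * (dx W z * dy (dx W) z)) :=
    IT_int (cpy.mul (cx.mul cyx)) (hcx.mul_right).mul_left
  have j2 : Integrable (fun z => dx φ z * (dy W z * dx (dy W) z)) :=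
    IT_int (cpx.mul (cy.mul cxy)) (hcy.mul_right).mul_left
  rw [e1, integral_add j0 j1, B1] at C1
  rw [e2, integral_add j0 j2, B2] at C2
  -- split the left hand side
  have i1 : Integrable (fun z => dx φ z * (dx W z * dx (dx W) z)) :=
    IT_int (cpx.mul (cx.mul cxx)) (hcx.mul_right).mul_left
  have i2 : Integrable (fun z => dx (dx W) z * (dy φ z * dy W z)) :=
    IT_int (cxx.mul (cpy.mul cy)) (hcy.mul_left).mul_left
  have i3 : Integrable (fun z => dy (dy W) z * (dx φ z * dx W z)) :=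
    IT_int (cyy.mul (cpx.mul cx)) (hcx.mul_left).mul_left
  have i4 : Integrable (fun z => dy φ z * (dy W z * dy (dy W) z)) :=
    IT_int (cpy.mul (cy.mul cyy)) (hcy.mul_right).mul_left
  have e : (fun z => (dx (dx W) z + dy (dy W) z) * (dx φ z * dx W z + dy φ z * dy W z)) =
      fun z => (dx φ z * (dx W z * dx (dx W) z) + dx (dx W) z * (dy φ z * dy W z)) +
        (dy (dy W) z * (dx φ z * dx W z) + dy φ z * (dy W z * dy (dy W) z)) := by
    funext z; ring
  have i12 : Integrable (fun z => dx φ z * (dx W z * dx (dx W) z) +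
      dx (dx W) z * (dy φ z * dy W z)) := i1.add i2
  have i34 : Integrable (fun z => dy (dy W) z * (dx φ z * dx W z) +
      dy φ z * (dy W z * dy (dy W) z)) := i3.add i4
  rw [e, integral_add i12 i34, integral_add i1 i2, integral_add i3 i4, A1, A2, C1, C2]
  -- split the right hand side
  have k1 : Integrable (fun z => dx (dx φ) z * dx W z ^ 2) :=
    IT_int (cpxx.mul (cx.pow 2)) (IT_sq hcx).mul_left
  have k2 : Integrable (fun z => dx (dx φ) z * dy W z ^ 2) :=
    IT_int (cpxx.mul (cy.pow 2)) (IT_sq hcy).mul_left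
  have k3 : Integrable (fun z => dy (dy φ) z * dx W z ^ 2) :=
    IT_int (cpyy.mul (cx.pow 2)) (IT_sq hcx).mul_left
  have k4 : Integrable (fun z => dy (dy φ) z * dy W z ^ 2) :=
    IT_int (cpyy.mul (cy.pow 2)) (IT_sq hcy).mul_left
  have e5 : (fun z => dx (dx φ) z * dx W z ^ 2 + 2 * dx (dy φ) z * dx W z * dy W z
        + dy (dy φ) z * dy W z ^ 2) =
      fun z => (dx (dx φ) z * dx W z ^ 2 + 2 * (dx (dy φ) z * dx W z * dy W z))
        + dy (dy φ) z * dy W z ^ 2 := by
    funext z; ring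
  have e6 : (fun z => (dx (dx φ) z + dy (dy φ) z) * (dx W z ^ 2 + dy W z ^ 2)) =
      fun z => (dx (dx φ) z * dx W z ^ 2 + dx (dx φ) z * dy W z ^ 2) +
        (dy (dy φ) z * dx W z ^ 2 + dy (dy φ) z * dy W z ^ 2) := by
    funext z; ring
  have j0' : Integrable (fun z => 2 * (dx (dy φ) z * dx W z * dy W z)) := j0.const_mul 2
  have k10 : Integrable (fun z => dx (dx φ) z * dx W z ^ 2 +
      2 * (dx (dy φ) z * dx W z * dy W z)) := k1.add j0'
  have k12 : Integrable (fun z => dx (dx φ) z * dx W z ^ 2 + dx (dx φ) z * dy W z ^ 2) := k1.add k2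
  have k34 : Integrable (fun z => dy (dy φ) z * dx W z ^ 2 + dy (dy φ) z * dy W z ^ 2) := k3.add k4
  rw [e5, e6, integral_add k10 k4, integral_add k1 j0', integral_const_mul,
    integral_add k12 k34, integral_add k1 k2, integral_add k3 k4]
  ring

theorem I2 (h : IB_stmt) : I2_stmt := fun W φ hW hc hφ => I2_aux h W φ hW hc hφ

end NS
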