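import Pool.Agent.helper58.NS.IT

/-!
# Project ns, module I3
-/

namespace NS

open MeasureTheory Filter Topology Set

theorem I3 (hIB : IB_stmt) : I3_stmt := by
  intro W G hW hc hG
  have hW1 : ContDiff ℝ 1 W := hW.of_le (by norm_num)
  have hG1 : ContDiff ℝ 1 G := hG.of_le (by norm_num)
  have hx1 := IT_dx1 hW
  have hy1 := IT_dy1 hW
  have gx1 := IT_dx1 hG
  have gy1 := IT_dy1 hG
  have hcx : HasCompactSupport (dx W) := IT_cs _ hc
  have hcy : HasCompactSupport (dy W) := IT_cs _ hc
  have hGW : ContDiff ℝ 1 (fun z => G z * W z) := hG1.mul hW1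
  have hcGW : HasCompactSupport (fun z => G z * W z) := hc.mul_left
  have dW : Differentiable ℝ W := hW1.differentiable (by norm_num)
  have dG : Differentiable ℝ G := hG1.differentiable (by norm_num)
  have a1 := (hIB (dx W) (fun z => G z * W z) hx1 hGW hcGW).2.1
  have a2 := (hIB (dy W) (fun z => G z * W z) hy1 hGW hcGW).2.2
  have e1 : (fun z => dx W z * dx (fun z => G z * W z) z) =
      fun z => dx G z * (W z * dx W z) + G z * dx W z ^ 2 := by
    funext z
    have := IT_mul (0, 1, 0) G W z (dG z) (dW z)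
    have h2 : dx (fun z => G z * W z) z = dx G z * W z + G z * dx W z := this
    rw [h2]
    ring
  have e2 : (fun z => dy W z * dy (fun z => G z * W z) z) =
      fun z => dy G z * (W z * dy W z) + G z * dy W z ^ 2 := by
    funext z
    have := IT_mul (0, 0, 1) G W z (dG z) (dW z)
    have h2 : dy (fun z => G z * W z) z = dy G z * W z + G z * dy W z := this
    rw [h2]
    ring
  have j1 : Integrable (fun z => dx G z * (W z * dx W z)) :=
    IT_int (gx1.continuous.mul (hW1.continuous.mul hx1.continuous)) (hc.mul_right).mul_left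
  have j2 : Integrable (fun z => G z * dx W z ^ 2) :=
    IT_int (hG1.continuous.mul (hx1.continuous.pow 2)) (IT_sq hcx).mul_left
  have j3 : Integrable (fun z => dy G z * (W z * dy W z)) :=
    IT_int (gy1.continuous.mul (hW1.continuous.mul hy1.continuous)) (hc.mul_right).mul_left
  have j4 : Integrable (fun z => G z * dy W z ^ 2) :=
    IT_int (hG1.continuous.mul (hy1.continuous.pow 2)) (IT_sq hcy).mul_left
  rw [e1, integral_add j1 j2] at a1
  rw [e2, integral_add j3 j4] at a2
  have b1 := IT_x hIB gx1 hW1 hc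
  have b2 := IT_y hIB gy1 hW1 hc
  rw [b1] at a1
  rw [b2] at a2
  have i1 : Integrable (fun z => dx (dx W) z * (G z * W z)) :=
    IT_int ((IT_dxc hx1).mul hGW.continuous) hcGW.mul_left
  have i2 : Integrable (fun z => dy (dy W) z * (G z * W z)) :=
    IT_int ((IT_dyc hy1).mul hGW.continuous) hcGW.mul_left
  have e : (fun z => G z * W z * (dx (dx W) z + dy (dy W) z)) =
      fun z => dx (dx W) z * (G z * W z) + dy (dy W) z * (G z * W z) := by
    funext z; ring
  have k1 : Integrable (fun z => dx (dx G) z * W z ^ 2) :=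
    IT_int ((IT_dxc gx1).mul (hW1.continuous.pow 2)) (IT_sq hc).mul_left
  have k2 : Integrable (fun z => dy (dy G) z * W z ^ 2) :=
    IT_int ((IT_dyc gy1).mul (hW1.continuous.pow 2)) (IT_sq hc).mul_left
  have e3 : (fun z => (dx (dx G) z + dy (dy G) z) * W z ^ 2) =
      fun z => dx (dx G) z * W z ^ 2 + dy (dy G) z * W z ^ 2 := by
    funext z; ring
  have e4 : (fun z => G z * (dx W z ^ 2 + dy W z ^ 2)) =
      fun z => G z * dx W z ^ 2 + G z * dy W z ^ 2 := by
    funext z; ring
  rw [e, integral_add i1 i2, a1, a2, e3, integral_add k1 k2, e4, integral_add j2 j4]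
  ring

end NS
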