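import Pool.Agent.helper29.NS.Spec2

/-!
# Project ns, module I4
-/

namespace NS

open MeasureTheory Filter Topology Set

theorem I4 (hIB : IB_stmt) : I4_stmt := by
  intro W H hW hc hH
  have hG : ContDiff ℝ 1 (fun z => W z ^ 2) := hW.pow 2
  have hGc : HasCompactSupport (fun z => W z ^ 2) := by
    have h1 : (fun z => W z ^ 2) = (fun z => W z * W z) := by funext z; ring
    rw [h1]
    exact hc.mul_right
  have h1 := (hIB H (fun z => W z ^ 2) hH hG hGc).1
  have h2 : ∀ z, dt (fun z => W z ^ 2) z = 2 * (W z * dt W z) := by
    intro z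
    unfold dt
    have hd : DifferentiableAt ℝ W z := (hW.differentiable (by norm_num)) z
    rw [fderiv_fun_pow 2 hd]
    simp
    ring
  have h3 : (fun z => H z * dt (fun z => W z ^ 2) z) = fun z => 2 * (H z * W z * dt W z) := by
    funext z
    rw [h2 z]
    ring
  rw [h3, integral_const_mul] at h1
  linarith

end NS
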