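import Pool.Agent.helper58.NS.IT

/-!
# Project ns, module I5
-/

namespace NS

open MeasureTheory Filter Topology Set

theorem I5 (hIB : IB_stmt) : I5_stmt := by
  intro W H φ hW hc hH hφ
  have px1 := IT_dx1 hφ
  have py1 := IT_dy1 hφ
  have dH : Differentiable ℝ H := hH.differentiable (by norm_num)
  have dpx : Differentiable ℝ (dx φ) := px1.differentiable (by norm_num)
  have dpy : Differentiable ℝ (dy φ) := py1.differentiable (by norm_num)
  have b1 := IT_x hIB (hH.mul px1) hW hc
  have b2 := IT_y hIB (hH.mul py1) hW hc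
  have hcx : HasCompactSupport (dx W) := IT_cs _ hc
  have hcy : HasCompactSupport (dy W) := IT_cs _ hc
  have e1 : (fun z => dx (fun z => H z * dx φ z) z * W z ^ 2) =
      fun z => (dx H z * dx φ z + H z * dx (dx φ) z) * W z ^ 2 := by
    funext z
    have h2 : dx (fun z => H z * dx φ z) z = dx H z * dx φ z + H z * dx (dx φ) z :=
      IT_mul (0, 1, 0) H (dx φ) z (dH z) (dpx z)
    rw [h2]
  have e2 : (fun z => dy (fun z => H z * dy φ z) z * W z ^ 2) =
      fun z => (dy H z * dy φ z + H z * dy (dy φ) z) * W z ^ 2 := by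
    funext z
    have h2 : dy (fun z => H z * dy φ z) z = dy H z * dy φ z + H z * dy (dy φ) z :=
      IT_mul (0, 0, 1) H (dy φ) z (dH z) (dpy z)
    rw [h2]
  rw [e1] at b1
  rw [e2] at b2
  have i1 : Integrable (fun z => H z * dx φ z * (W z * dx W z)) :=
    IT_int ((hH.continuous.mul px1.continuous).mul (hW.continuous.mul (IT_dxc hW)))
      (hc.mul_right).mul_left
  have i2 : Integrable (fun z => H z * dy φ z * (W z * dy W z)) :=
    IT_int ((hH.continuous.mul py1.continuous).mul (hW.continuous.mul (IT_dyc hW)))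
      (hc.mul_right).mul_left
  have k1 : Integrable (fun z => (dx H z * dx φ z + H z * dx (dx φ) z) * W z ^ 2) :=
    IT_int ((((IT_dxc hH).mul px1.continuous).add (hH.continuous.mul (IT_dxc px1))).mul
      (hW.continuous.pow 2)) (IT_sq hc).mul_left
  have k2 : Integrable (fun z => (dy H z * dy φ z + H z * dy (dy φ) z) * W z ^ 2) :=
    IT_int ((((IT_dyc hH).mul py1.continuous).add (hH.continuous.mul (IT_dyc py1))).mul
      (hW.continuous.pow 2)) (IT_sq hc).mul_left
  have e3 : (fun z => H z * W z * (dx φ z * dx W z + dy φ z * dy W z)) =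
      fun z => H z * dx φ z * (W z * dx W z) + H z * dy φ z * (W z * dy W z) := by
    funext z; ring
  have e4 : (fun z => (dx H z * dx φ z + dy H z * dy φ z + H z * (dx (dx φ) z + dy (dy φ) z))
        * W z ^ 2) = fun z => (dx H z * dx φ z + H z * dx (dx φ) z) * W z ^ 2 +
        (dy H z * dy φ z + H z * dy (dy φ) z) * W z ^ 2 := by
    funext z; ring
  rw [e3, integral_add i1 i2, e4, integral_add k1 k2]
  have b1' : ∫ z, H z * dx φ z * (W z * dx W z) =
      -(1 / 2) * ∫ z, (dx H z * dx φ z + H z * dx (dx φ) z) * W z ^ 2 := b1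
  have b2' : ∫ z, H z * dy φ z * (W z * dy W z) =
      -(1 / 2) * ∫ z, (dy H z * dy φ z + H z * dy (dy φ) z) * W z ^ 2 := b2
  rw [b1', b2']
  ring

end NS
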