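import Pool.Agent.helper58.NS.IT

/-!
# Project ns, module IB: integration by parts
-/

namespace NS

open MeasureTheory Filter Topology Set

theorem IB_haar2 : (volume : Measure (ℝ × ℝ)).IsAddHaarMeasure := by
  rw [Measure.volume_eq_prod]; infer_instance

theorem IB_haar : (volume : Measure (ℝ × ℝ × ℝ)).IsAddHaarMeasure := by
  have := IB_haar2
  rw [Measure.volume_eq_prod]; infer_instance

theorem IB_v (v : ℝ × ℝ × ℝ) (F G : ℝ × ℝ × ℝ → ℝ) (hF : ContDiff ℝ 1 F) (hG : ContDiff ℝ 1 G)
    (hc : HasCompactSupport G) :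
    ∫ z, fderiv ℝ F z v * G z = -∫ z, F z * fderiv ℝ G z v := by
  have hFc : Continuous (fun z => fderiv ℝ F z v) :=
    (hF.continuous_fderiv (by norm_num)).clm_apply continuous_const
  have hGc : Continuous (fun z => fderiv ℝ G z v) :=
    (hG.continuous_fderiv (by norm_num)).clm_apply continuous_const
  have i1 : Integrable (fun z => fderiv ℝ F z v * G z) :=
    IT_int (hFc.mul hG.continuous) hc.mul_left
  have i2 : Integrable (fun z => F z * fderiv ℝ G z v) :=
    IT_int (hF.continuous.mul hGc) (IT_cs v hc).mul_left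
  have i3 : Integrable (fun z => F z * G z) := IT_int (hF.continuous.mul hG.continuous) hc.mul_left
  have := IB_haar
  have h := integral_mul_fderiv_eq_neg_fderiv_mul_of_integrable (μ := volume) (v := v)
    (f := F) (g := G) i1 i2 i3 (fun x _ => (hF.differentiable (by norm_num)) x)
    (fun x _ => (hG.differentiable (by norm_num)) x)
  rw [h, neg_neg]

theorem IB : IB_stmt := fun F G hF hG hc =>
  ⟨IB_v _ F G hF hG hc, IB_v _ F G hF hG hc, IB_v _ F G hF hG hc⟩

end NS
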