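import Pool.Agent.helper58.NS.IB
import Pool.Agent.helper58.NS.I1
import Pool.Agent.helper58.NS.I2
import Pool.Agent.helper58.NS.I3
import Pool.Agent.helper58.NS.I4
import Pool.Agent.helper58.NS.I5

/-!
# Project ns, module WT: the integrated identity
-/

namespace NS

open MeasureTheory Filter Topology Set

theorem WT_X (z v : ℝ × ℝ × ℝ) : fderiv ℝ (fun z : ℝ × ℝ × ℝ => z.2.1) z v = v.2.1 := by
  have h : HasFDerivAt (fun z : ℝ × ℝ × ℝ => z.2.1)
      ((ContinuousLinearMap.fst ℝ ℝ ℝ).comp (ContinuousLinearMap.snd ℝ ℝ (ℝ × ℝ))) z :=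
    ((ContinuousLinearMap.fst ℝ ℝ ℝ).comp (ContinuousLinearMap.snd ℝ ℝ (ℝ × ℝ))).hasFDerivAt
  rw [h.fderiv]; rfl

theorem WT_Y (z v : ℝ × ℝ × ℝ) : fderiv ℝ (fun z : ℝ × ℝ × ℝ => z.2.2) z v = v.2.2 := by
  have h : HasFDerivAt (fun z : ℝ × ℝ × ℝ => z.2.2)
      ((ContinuousLinearMap.snd ℝ ℝ ℝ).comp (ContinuousLinearMap.snd ℝ ℝ (ℝ × ℝ))) z :=
    ((ContinuousLinearMap.snd ℝ ℝ ℝ).comp (ContinuousLinearMap.snd ℝ ℝ (ℝ × ℝ))).hasFDerivAt
  rw [h.fderiv]; rfl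

theorem WT_T (z v : ℝ × ℝ × ℝ) : fderiv ℝ (fun z : ℝ × ℝ × ℝ => z.1) z v = v.1 := by
  have h : HasFDerivAt (fun z : ℝ × ℝ × ℝ => z.1)
      (ContinuousLinearMap.fst ℝ ℝ (ℝ × ℝ)) z :=
    (ContinuousLinearMap.fst ℝ ℝ (ℝ × ℝ)).hasFDerivAt
  rw [h.fderiv]; rfl

theorem WT_rhd : ContDiff ℝ 3 rh := by
  unfold rh
  fun_prop

theorem WT_E3 (l : ℝ) : ContDiff ℝ 3 (fun z => Real.exp (-(l * rh z))) :=
  ((contDiff_const.mul WT_rhd).neg).exp

theorem WT_rh (z v : ℝ × ℝ × ℝ) : fderiv ℝ rh z v = 2 * z.2.1 * v.2.1 + 2 * z.2.2 * v.2.2 := by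
  have e : rh = fun z => z.2.1 * z.2.1 + z.2.2 * z.2.2 := by
    funext z; unfold rh; ring
  rw [e, fderiv_fun_add (by fun_prop) (by fun_prop), ContinuousLinearMap.add_apply,
    IT_mul v (fun z => z.2.1) (fun z => z.2.1) z (by fun_prop) (by fun_prop),
    IT_mul v (fun z => z.2.2) (fun z => z.2.2) z (by fun_prop) (by fun_prop), WT_X, WT_Y]
  ring

theorem WT_E (l : ℝ) (z v : ℝ × ℝ × ℝ) : fderiv ℝ (fun z => Real.exp (-(l * rh z))) z v =
    -(2 * l * z.2.1 * v.2.1 + 2 * l * z.2.2 * v.2.2) * Real.exp (-(l * rh z)) := by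
  have hd : DifferentiableAt ℝ rh z := (WT_rhd.differentiable (by norm_num)) z
  have h1 : HasFDerivAt (fun z => -(l * rh z)) (-(l • fderiv ℝ rh z)) z :=
    (hd.hasFDerivAt.const_mul l).neg
  rw [h1.exp.fderiv]
  simp only [ContinuousLinearMap.smul_apply, ContinuousLinearMap.neg_apply, smul_eq_mul, WT_rh]
  ring

/-- derivative of `P * E` -/
theorem WT_PE (l : ℝ) (P : ℝ × ℝ × ℝ → ℝ) (z v : ℝ × ℝ × ℝ) (hP : DifferentiableAt ℝ P z) :
    fderiv ℝ (fun z => P z * Real.exp (-(l * rh z))) z v =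
    (fderiv ℝ P z v - (2 * l * z.2.1 * v.2.1 + 2 * l * z.2.2 * v.2.2) * P z)
      * Real.exp (-(l * rh z)) := by
  rw [IT_mul v P _ z hP (((WT_E3 l).differentiable (by norm_num)) z), WT_E]
  ring

theorem WT_wt3 (l : ℝ) : ContDiff ℝ 3 (wt l) := by
  unfold wt
  exact (WT_E3 l).sub (by fun_prop)

theorem WT_wtv (l : ℝ) (z v : ℝ × ℝ × ℝ) : fderiv ℝ (wt l) z v =
    -(2 * l * z.2.1 * v.2.1 + 2 * l * z.2.2 * v.2.2) * Real.exp (-(l * rh z)) - 2 * z.1 * v.1 := by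
  have e : wt l = fun z => Real.exp (-(l * rh z)) - z.1 * z.1 := by
    funext z; unfold wt; ring
  rw [e, fderiv_fun_sub (((WT_E3 l).differentiable (by norm_num)) z) (by fun_prop),
    ContinuousLinearMap.sub_apply, WT_E,
    IT_mul v (fun z => z.1) (fun z => z.1) z (by fun_prop) (by fun_prop), WT_T]
  ring

theorem WT_dx (l : ℝ) : dx (wt l) = fun z => (-(2 * l) * z.2.1) * Real.exp (-(l * rh z)) := by
  funext z; unfold dx; rw [WT_wtv]; simp

theorem WT_dy (l : ℝ) : dy (wt l) = fun z => (-(2 * l) * z.2.2) * Real.exp (-(l * rh z)) := by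
  funext z; unfold dy; rw [WT_wtv]; simp

theorem WT_cX (c : ℝ) (z v : ℝ × ℝ × ℝ) :
    fderiv ℝ (fun z : ℝ × ℝ × ℝ => c * z.2.1) z v = c * v.2.1 := by
  rw [fderiv_const_mul (by fun_prop), ContinuousLinearMap.smul_apply, WT_X, smul_eq_mul]

theorem WT_cY (c : ℝ) (z v : ℝ × ℝ × ℝ) :
    fderiv ℝ (fun z : ℝ × ℝ × ℝ => c * z.2.2) z v = c * v.2.2 := by
  rw [fderiv_const_mul (by fun_prop), ContinuousLinearMap.smul_apply, WT_Y, smul_eq_mul]

theorem WT_dxx (l : ℝ) (z : ℝ × ℝ × ℝ) : dx (dx (wt l)) z =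
    (4 * l ^ 2 * z.2.1 ^ 2 - 2 * l) * Real.exp (-(l * rh z)) := by
  rw [WT_dx]
  unfold dx
  rw [WT_PE l _ z _ (by fun_prop), WT_cX]
  ring

theorem WT_dxy (l : ℝ) (z : ℝ × ℝ × ℝ) : dx (dy (wt l)) z =
    4 * l ^ 2 * z.2.1 * z.2.2 * Real.exp (-(l * rh z)) := by
  rw [WT_dy]
  unfold dx
  rw [WT_PE l _ z _ (by fun_prop), WT_cY]
  ring

theorem WT_dyy (l : ℝ) (z : ℝ × ℝ × ℝ) : dy (dy (wt l)) z =
    (4 * l ^ 2 * z.2.2 ^ 2 - 2 * l) * Real.exp (-(l * rh z)) := by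
  rw [WT_dy]
  unfold dy
  rw [WT_PE l _ z _ (by fun_prop), WT_cY]
  ring

/-- `|∇φ|²` -/
noncomputable def WT_S (l : ℝ) (z : ℝ × ℝ × ℝ) : ℝ :=
  4 * l ^ 2 * rh z * Real.exp (-(l * rh z)) ^ 2

theorem WT_S3 (l : ℝ) : ContDiff ℝ 3 (WT_S l) := by
  unfold WT_S
  exact (contDiff_const.mul WT_rhd).mul ((WT_E3 l).pow 2)

theorem WT_Sv (l : ℝ) (z v : ℝ × ℝ × ℝ) : fderiv ℝ (WT_S l) z v =
    4 * l ^ 2 * (2 * z.2.1 * v.2.1 + 2 * z.2.2 * v.2.2) * (1 - 2 * l * rh z)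
      * Real.exp (-(l * rh z)) ^ 2 := by
  have e : WT_S l = fun z => (4 * l ^ 2 * rh z * Real.exp (-(l * rh z))) *
      Real.exp (-(l * rh z)) := by
    funext z; unfold WT_S; ring
  have hd : DifferentiableAt ℝ rh z := (WT_rhd.differentiable (by norm_num)) z
  have hE : DifferentiableAt ℝ (fun z => Real.exp (-(l * rh z))) z :=
    ((WT_E3 l).differentiable (by norm_num)) z
  have hP : DifferentiableAt ℝ (fun z => 4 * l ^ 2 * rh z * Real.exp (-(l * rh z))) z :=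
    (hd.const_mul _).mul hE
  have hQ : DifferentiableAt ℝ (fun z => 4 * l ^ 2 * rh z) z := hd.const_mul _
  rw [e, WT_PE l (fun z => 4 * l ^ 2 * rh z * Real.exp (-(l * rh z))) z v hP,
    WT_PE l (fun z => 4 * l ^ 2 * rh z) z v hQ,
    fderiv_const_mul hd, ContinuousLinearMap.smul_apply, WT_rh, smul_eq_mul]
  ring

theorem WT_m3 (l : ℝ) : ContDiff ℝ 3 (mm l) := by
  unfold mm
  exact (contDiff_const.mul WT_rhd).mul (WT_E3 l)

/-- the function `H` -/
noncomputable def WT_H (ν l τ : ℝ) (z : ℝ × ℝ × ℝ) : ℝ :=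
  ν * τ ^ 2 * WT_S l z - 2 * τ * z.1 + ν * τ * mm l z

theorem WT_H1 (ν l τ : ℝ) : ContDiff ℝ 1 (WT_H ν l τ) := by
  unfold WT_H
  have h1 : ContDiff ℝ 1 (WT_S l) := (WT_S3 l).of_le (by norm_num)
  have h2 : ContDiff ℝ 1 (mm l) := (WT_m3 l).of_le (by norm_num)
  fun_prop

theorem WT_Hv (ν l τ : ℝ) (z v : ℝ × ℝ × ℝ) : fderiv ℝ (WT_H ν l τ) z v =
    ν * τ ^ 2 * fderiv ℝ (WT_S l) z v - 2 * τ * v.1 + ν * τ * fderiv ℝ (mm l) z v := by
  have h1 : DifferentiableAt ℝ (WT_S l) z := ((WT_S3 l).differentiable (by norm_num)) z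
  have h2 : DifferentiableAt ℝ (mm l) z := ((WT_m3 l).differentiable (by norm_num)) z
  unfold WT_H
  rw [fderiv_fun_add (by fun_prop) (by fun_prop), fderiv_fun_sub (by fun_prop) (by fun_prop),
    fderiv_const_mul h1, fderiv_const_mul h2, fderiv_const_mul (by fun_prop)]
  simp only [ContinuousLinearMap.add_apply, ContinuousLinearMap.sub_apply,
    ContinuousLinearMap.smul_apply, smul_eq_mul, WT_T]

/-- the function `G` -/
noncomputable def WT_G (l : ℝ) (z : ℝ × ℝ × ℝ) : ℝ :=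
  (4 * l ^ 2 * rh z - 4 * l) * Real.exp (-(l * rh z)) + mm l z

theorem WT_G3 (l : ℝ) : ContDiff ℝ 3 (WT_G l) := by
  unfold WT_G
  exact (((contDiff_const.mul WT_rhd).sub contDiff_const).mul (WT_E3 l)).add (WT_m3 l)

theorem WT : WT_stmt := by
  intro ν l
  have hG3 := WT_G3 l
  have hG2 : ContDiff ℝ 2 (WT_G l) := hG3.of_le (by norm_num)
  have hm1 : ContDiff ℝ 1 (mm l) := (WT_m3 l).of_le (by norm_num)
  have hφ3 := WT_wt3 l
  have hφ2 : ContDiff ℝ 2 (wt l) := hφ3.of_le (by norm_num)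
  have hφ1 : ContDiff ℝ 1 (wt l) := hφ3.of_le (by norm_num)
  have cGxx := IT_dxc (IT_dx1 hG2)
  have cGyy := IT_dyc (IT_dy1 hG2)
  have cmx := IT_dxc hm1
  have cmy := IT_dyc hm1
  have cφx := IT_dxc hφ1
  have cφy := IT_dyc hφ1
  have cm := hm1.continuous
  have cE : Continuous (fun z => Real.exp (-(l * rh z))) := (WT_E3 l).continuous
  have crh : Continuous rh := WT_rhd.continuous
  refine ⟨fun z => -ν ^ 2 * (dx (dx (WT_G l)) z + dy (dy (WT_G l)) z) - 2,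
    fun z => 2 * ν ^ 2 * (dx (mm l) z * dx (wt l) z + dy (mm l) z * dy (wt l) z)
      + 4 * ν * mm l z * z.1 - 2 * ν ^ 2 * mm l z ^ 2, ?_, ?_, ?_⟩
  · fun_prop
  · fun_prop
  intro τ W hW hc
  have hW1 : ContDiff ℝ 1 W := hW.of_le (by norm_num)
  have hH1 := WT_H1 ν l τ
  have hx1 := IT_dx1 hW
  have hy1 := IT_dy1 hW
  have hcx : HasCompactSupport (dx W) := IT_cs _ hc
  have hcy : HasCompactSupport (dy W) := IT_cs _ hc
  have hct : HasCompactSupport (dt W) := IT_cs _ hc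
  have cW := hW.continuous
  have cWx := hx1.continuous
  have cWy := hy1.continuous
  have cWt := (IT_dt1 hW).continuous
  have cWxx := IT_dxc hx1
  have cWyy := IT_dyc hy1
  have cH := hH1.continuous
  have cHx := IT_dxc hH1
  have cHy := IT_dyc hH1
  have cHt := IT_dtc hH1
  have cG := hG3.continuous
  have cφxx := IT_dxc (IT_dx1 hφ2)
  have cφyy := IT_dyc (IT_dy1 hφ2)
  have cφxy := IT_dxc (IT_dy1 hφ2)
  have i1 := I1 IB W hW hc
  have i2 := I2_aux IB W (wt l) hW hc hφ3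
  have i3 := I3 IB W (WT_G l) hW hc hG2
  have i4 := I4 IB W (WT_H ν l τ) hW1 hc hH1
  have i5 := I5 IB W (WT_H ν l τ) (wt l) hW1 hc hH1 hφ2
  -- the left hand side
  have eL : (fun z => opS ν l τ W z * opA ν l τ W z) = fun z =>
      (-ν * ((dx (dx W) z + dy (dy W) z) * dt W z)
      + (-2 * ν ^ 2 * τ) * ((dx (dx W) z + dy (dy W) z) * (dx (wt l) z * dx W z
          + dy (wt l) z * dy W z)))
      + ((-ν ^ 2 * τ) * (WT_G l z * W z * (dx (dx W) z + dy (dy W) z))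
      + (-1 : ℝ) * (WT_H ν l τ z * W z * dt W z))
      + ((-2 * ν * τ) * (WT_H ν l τ z * W z * (dx (wt l) z * dx W z + dy (wt l) z * dy W z))
      + (-ν * τ) * (WT_H ν l τ z * WT_G l z * W z ^ 2)) := by
    funext z
    unfold opS opA WT_H WT_G WT_S
    rw [WT_dx, WT_dy]
    ring
  have j1 : Integrable (fun z => (dx (dx W) z + dy (dy W) z) * dt W z) :=
    IT_int (by fun_prop) hct.mul_left
  have j2 : Integrable (fun z => (dx (dx W) z + dy (dy W) z) * (dx (wt l) z * dx W z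
          + dy (wt l) z * dy W z)) :=
    IT_int (by fun_prop) ((hcx.mul_left.add hcy.mul_left).mul_left)
  have j3 : Integrable (fun z => WT_G l z * W z * (dx (dx W) z + dy (dy W) z)) :=
    IT_int (by fun_prop) (hc.mul_left.mul_right)
  have j4 : Integrable (fun z => WT_H ν l τ z * W z * dt W z) :=
    IT_int (by fun_prop) hct.mul_left
  have j5 : Integrable (fun z => WT_H ν l τ z * W z * (dx (wt l) z * dx W z
      + dy (wt l) z * dy W z)) :=
    IT_int (by fun_prop) (hc.mul_left.mul_right)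
  have j6 : Integrable (fun z => WT_H ν l τ z * WT_G l z * W z ^ 2) :=
    IT_int (by fun_prop) (IT_sq hc).mul_left
  have k12 : Integrable (fun z => -ν * ((dx (dx W) z + dy (dy W) z) * dt W z)
      + (-2 * ν ^ 2 * τ) * ((dx (dx W) z + dy (dy W) z) * (dx (wt l) z * dx W z
          + dy (wt l) z * dy W z))) := (j1.const_mul _).add (j2.const_mul _)
  have k34 : Integrable (fun z => (-ν ^ 2 * τ) * (WT_G l z * W z * (dx (dx W) z + dy (dy W) z))
      + (-1 : ℝ) * (WT_H ν l τ z * W z * dt W z)) := (j3.const_mul _).add (j4.const_mul _)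
  have k56 : Integrable (fun z => (-2 * ν * τ) * (WT_H ν l τ z * W z * (dx (wt l) z * dx W z
      + dy (wt l) z * dy W z)) + (-ν * τ) * (WT_H ν l τ z * WT_G l z * W z ^ 2)) :=
    (j5.const_mul _).add (j6.const_mul _)
  have k1234 : Integrable (fun z => (-ν * ((dx (dx W) z + dy (dy W) z) * dt W z)
      + (-2 * ν ^ 2 * τ) * ((dx (dx W) z + dy (dy W) z) * (dx (wt l) z * dx W z
          + dy (wt l) z * dy W z)))
      + ((-ν ^ 2 * τ) * (WT_G l z * W z * (dx (dx W) z + dy (dy W) z))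
      + (-1 : ℝ) * (WT_H ν l τ z * W z * dt W z))) := k12.add k34
  rw [eL, integral_add k1234 k56, integral_add k12 k34,
    integral_add (j1.const_mul _) (j2.const_mul _), integral_add (j3.const_mul _) (j4.const_mul _),
    integral_add (j5.const_mul _) (j6.const_mul _), integral_const_mul, integral_const_mul,
    integral_const_mul, integral_const_mul, integral_const_mul, integral_const_mul,
    i1, i2, i3, i4, i5]
  -- integrability of the pieces on the right hand side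
  have a1 : Integrable (fun z => dx (dx (wt l)) z * dx W z ^ 2 + 2 * dx (dy (wt l)) z * dx W z
      * dy W z + dy (dy (wt l)) z * dy W z ^ 2) :=
    IT_int (by fun_prop) (((IT_sq hcx).mul_left.add hcy.mul_left).add (IT_sq hcy).mul_left)
  have a2 : Integrable (fun z => (dx (dx (wt l)) z + dy (dy (wt l)) z)
      * (dx W z ^ 2 + dy W z ^ 2)) :=
    IT_int (by fun_prop) ((IT_sq hcx).add (IT_sq hcy)).mul_left
  have a3 : Integrable (fun z => (dx (dx (WT_G l)) z + dy (dy (WT_G l)) z) * W z ^ 2) :=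
    IT_int (by fun_prop) (IT_sq hc).mul_left
  have a4 : Integrable (fun z => WT_G l z * (dx W z ^ 2 + dy W z ^ 2)) :=
    IT_int (by fun_prop) ((IT_sq hcx).add (IT_sq hcy)).mul_left
  have a5 : Integrable (fun z => dt (WT_H ν l τ) z * W z ^ 2) :=
    IT_int (by fun_prop) (IT_sq hc).mul_left
  have a6 : Integrable (fun z => (dx (WT_H ν l τ) z * dx (wt l) z + dy (WT_H ν l τ) z
      * dy (wt l) z + WT_H ν l τ z * (dx (dx (wt l)) z + dy (dy (wt l)) z)) * W z ^ 2) :=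
    IT_int (by fun_prop) (IT_sq hc).mul_left
  -- gradient part
  have eg : (fun z => (8 * l ^ 2 * rh z - 8 * l) * Real.exp (-(l * rh z))
          * (dx W z ^ 2 + dy W z ^ 2)
        + 16 * l ^ 2 * Real.exp (-(l * rh z)) * (z.2.1 * dx W z + z.2.2 * dy W z) ^ 2) =
      fun z => (4 * (dx (dx (wt l)) z * dx W z ^ 2 + 2 * dx (dy (wt l)) z * dx W z
      * dy W z + dy (dy (wt l)) z * dy W z ^ 2) + (-2) * ((dx (dx (wt l)) z + dy (dy (wt l)) z)
      * (dx W z ^ 2 + dy W z ^ 2))) + 2 * (WT_G l z * (dx W z ^ 2 + dy W z ^ 2)) := by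
    funext z
    rw [WT_dxx, WT_dxy, WT_dyy]
    unfold WT_G mm rh
    ring
  have b12 : Integrable (fun z => 4 * (dx (dx (wt l)) z * dx W z ^ 2 + 2 * dx (dy (wt l)) z
      * dx W z * dy W z + dy (dy (wt l)) z * dy W z ^ 2) + (-2) * ((dx (dx (wt l)) z
      + dy (dy (wt l)) z) * (dx W z ^ 2 + dy W z ^ 2))) := (a1.const_mul 4).add (a2.const_mul (-2))
  have hg : ∫ z, ((8 * l ^ 2 * rh z - 8 * l) * Real.exp (-(l * rh z))
          * (dx W z ^ 2 + dy W z ^ 2)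
        + 16 * l ^ 2 * Real.exp (-(l * rh z)) * (z.2.1 * dx W z + z.2.2 * dy W z) ^ 2) =
      4 * (∫ z, (dx (dx (wt l)) z * dx W z ^ 2 + 2 * dx (dy (wt l)) z * dx W z
      * dy W z + dy (dy (wt l)) z * dy W z ^ 2)) + (-2) * (∫ z, (dx (dx (wt l)) z
      + dy (dy (wt l)) z) * (dx W z ^ 2 + dy W z ^ 2))
      + 2 * ∫ z, WT_G l z * (dx W z ^ 2 + dy W z ^ 2) := by
    rw [eg, integral_add b12 (a4.const_mul 2), integral_add (a1.const_mul 4) (a2.const_mul (-2)),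
      integral_const_mul, integral_const_mul, integral_const_mul]
  -- zero order part
  have ez : (fun z => (ν ^ 2 * τ ^ 3 * (8 * l * (l * rh z - 1) * Real.exp (-(l * rh z))
          * (4 * l ^ 2 * rh z * Real.exp (-(l * rh z)) ^ 2)) + τ ^ 2 *
          (2 * ν ^ 2 * (dx (mm l) z * dx (wt l) z + dy (mm l) z * dy (wt l) z)
      + 4 * ν * mm l z * z.1 - 2 * ν ^ 2 * mm l z ^ 2) + τ * (-ν ^ 2 * (dx (dx (WT_G l)) z
        + dy (dy (WT_G l)) z) - 2)) * W z ^ 2) =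
      fun z => ((-ν ^ 2 * τ) * ((dx (dx (WT_G l)) z + dy (dy (WT_G l)) z) * W z ^ 2)
        + 1 * (dt (WT_H ν l τ) z * W z ^ 2)) + ((2 * ν * τ) * ((dx (WT_H ν l τ) z * dx (wt l) z
        + dy (WT_H ν l τ) z * dy (wt l) z + WT_H ν l τ z * (dx (dx (wt l)) z
        + dy (dy (wt l)) z)) * W z ^ 2) + (-2 * ν * τ) * (WT_H ν l τ z * WT_G l z * W z ^ 2)) := by
    funext z
    have hHt : dt (WT_H ν l τ) z = -2 * τ + ν * τ ^ 2 * dt (WT_S l) z + ν * τ * dt (mm l) z := by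
      unfold dt; rw [WT_Hv]; ring
    have hSt : dt (WT_S l) z = 0 := by unfold dt; rw [WT_Sv]; ring
    have hmt : dt (mm l) z = 0 := by
      have e : mm l = fun z => (4 * l ^ 2 * rh z) * Real.exp (-(l * rh z)) := rfl
      have hd : DifferentiableAt ℝ rh z := (WT_rhd.differentiable (by norm_num)) z
      unfold dt
      rw [e, WT_PE l _ z _ (hd.const_mul _), fderiv_const_mul hd,
        ContinuousLinearMap.smul_apply, WT_rh, smul_eq_mul]
      ring
    have hHx : dx (WT_H ν l τ) z = ν * τ ^ 2 * dx (WT_S l) z + ν * τ * dx (mm l) z := by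
      unfold dx; rw [WT_Hv]; ring
    have hHy : dy (WT_H ν l τ) z = ν * τ ^ 2 * dy (WT_S l) z + ν * τ * dy (mm l) z := by
      unfold dy; rw [WT_Hv]; ring
    have hSx : dx (WT_S l) z = 8 * l ^ 2 * z.2.1 * (1 - 2 * l * rh z)
      * Real.exp (-(l * rh z)) ^ 2 := by unfold dx; rw [WT_Sv]; ring
    have hSy : dy (WT_S l) z = 8 * l ^ 2 * z.2.2 * (1 - 2 * l * rh z)
      * Real.exp (-(l * rh z)) ^ 2 := by unfold dy; rw [WT_Sv]; ring
    have hwx : dx (wt l) z = (-(2 * l) * z.2.1) * Real.exp (-(l * rh z)) := by rw [WT_dx]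
    have hwy : dy (wt l) z = (-(2 * l) * z.2.2) * Real.exp (-(l * rh z)) := by rw [WT_dy]
    rw [hHt, hSt, hmt, hHx, hHy, hSx, hSy, WT_dxx, WT_dyy, hwx, hwy]
    unfold WT_H WT_G WT_S
    have hm : mm l z = 4 * l ^ 2 * rh z * Real.exp (-(l * rh z)) := rfl
    rw [hm]
    unfold rh
    ring
  have d12 : Integrable (fun z => (-ν ^ 2 * τ) * ((dx (dx (WT_G l)) z + dy (dy (WT_G l)) z)
      * W z ^ 2) + 1 * (dt (WT_H ν l τ) z * W z ^ 2)) := (a3.const_mul _).add (a5.const_mul 1)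
  have d34 : Integrable (fun z => (2 * ν * τ) * ((dx (WT_H ν l τ) z * dx (wt l) z
        + dy (WT_H ν l τ) z * dy (wt l) z + WT_H ν l τ z * (dx (dx (wt l)) z
        + dy (dy (wt l)) z)) * W z ^ 2) + (-2 * ν * τ) * (WT_H ν l τ z * WT_G l z * W z ^ 2)) :=
    (a6.const_mul _).add (j6.const_mul _)
  have hz : ∫ z, (ν ^ 2 * τ ^ 3 * (8 * l * (l * rh z - 1) * Real.exp (-(l * rh z))
          * (4 * l ^ 2 * rh z * Real.exp (-(l * rh z)) ^ 2)) + τ ^ 2 *
          (2 * ν ^ 2 * (dx (mm l) z * dx (wt l) z + dy (mm l) z * dy (wt l) z)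
      + 4 * ν * mm l z * z.1 - 2 * ν ^ 2 * mm l z ^ 2) + τ * (-ν ^ 2 * (dx (dx (WT_G l)) z
        + dy (dy (WT_G l)) z) - 2)) * W z ^ 2 =
      ((-ν ^ 2 * τ) * (∫ z, (dx (dx (WT_G l)) z + dy (dy (WT_G l)) z) * W z ^ 2)
        + 1 * ∫ z, dt (WT_H ν l τ) z * W z ^ 2) + ((2 * ν * τ) * (∫ z, (dx (WT_H ν l τ) z
        * dx (wt l) z + dy (WT_H ν l τ) z * dy (wt l) z + WT_H ν l τ z * (dx (dx (wt l)) z
        + dy (dy (wt l)) z)) * W z ^ 2) + (-2 * ν * τ) * ∫ z, WT_H ν l τ z * WT_G l z * W z ^ 2)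
      := by
    rw [ez, integral_add d12 d34, integral_add (a3.const_mul _) (a5.const_mul 1),
      integral_add (a6.const_mul _) (j6.const_mul _), integral_const_mul, integral_const_mul,
      integral_const_mul, integral_const_mul]
  rw [hg, hz]
  ring

end NS
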